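import Pool.Agent.V5helper51.EG.Stm
import Pool.Agent.N748.MJ.SM

set_option autoImplicit false

/-! Project EG, job TLT (helper69): the tilted tail with the factor `1/√ℓ` -/

namespace Pool.Agent.V5helper69.EG.TLT

open Finset Filter MeasureTheory Topology Complex
open Pool.Agent.N748.MG Pool.Agent.N748.MJ
open Pool.Agent.V5helper51.PL Pool.Agent.V5helper51.EG

lemma phi_bd {φ : ℝ → ℂ} (hφ : Continuous φ) {R : ℝ} (h0 : ∀ ξ, R < |ξ| → φ ξ = 0) :
    ∃ B : ℝ, 0 < B ∧ ∀ ξ, ‖φ ξ‖ ≤ B := by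
  obtain ⟨B, hB⟩ := (isCompact_Icc (a := -R) (b := R)).exists_bound_of_continuousOn hφ.continuousOn
  refine ⟨max B 1, lt_max_of_lt_right one_pos, fun ξ => ?_⟩
  rcases lt_or_ge R |ξ| with h | h
  · rw [h0 ξ h, norm_zero]
    exact (le_max_right _ _).trans' zero_le_one
  · exact (hB ξ ⟨neg_le_of_abs_le h, le_of_abs_le h⟩).trans (le_max_left _ _)

lemma key {N : Set ℝ} {z F : ℝ → ℝ} (hN : MeasurableSet N) (hz : Measurable z) (hF : Measurable F)
    (hFi : IntegrableOn F N) (hz0 : ∀ t ∈ N, 0 < z t) {φ : ℝ → ℂ} (hφ : Continuous φ) {B R' : ℝ}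
    (hB0 : 0 ≤ B) (hB : ∀ ξ, ‖φ ξ‖ ≤ B) {mm : ℝ → ℝ}
    (hm : ∀ x : ℝ, ((mm x : ℝ) : ℂ) = ∫ ξ in Set.Icc (-R') R', φ ξ * cexp (((ξ * x : ℝ) : ℂ) * I))
    {c A L : ℝ} (hc : 0 < c) (hA : 0 ≤ A) (hL : 0 < L)
    (hb : ∀ ξ : ℝ, |ξ| ≤ R' → ‖∫ t in N, ((z t : ℝ) : ℂ) ^ ((ξ : ℂ) * I) * ((F t : ℝ) : ℂ)‖ ≤
      A * Real.exp (-(ξ ^ 2 / 4) * L)) :
    IntegrableOn (fun t => F t * mm (Real.log (z t / c))) N ∧
      ∫ t in N, F t * mm (Real.log (z t / c)) ≤ B * A * Real.sqrt (4 * Real.pi / L) := by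
  set f : ℝ × ℝ → ℂ := fun p => ((F p.1 : ℝ) : ℂ) *
    (φ p.2 * cexp (((p.2 * Real.log (z p.1 / c) : ℝ) : ℂ) * I)) with hf
  have hmeas : Measurable f := by
    refine (Complex.measurable_ofReal.comp (hF.comp measurable_fst)).mul
      ((hφ.measurable.comp measurable_snd).mul (Complex.measurable_exp.comp (Measurable.mul_const ?_ _)))
    exact Complex.measurable_ofReal.comp
      (measurable_snd.mul (Real.measurable_log.comp ((hz.comp measurable_fst).div_const c)))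
  have hfi : Integrable f ((volume.restrict N).prod (volume.restrict (Set.Icc (-R') R'))) := by
    have h1 : Integrable (fun p : ℝ × ℝ => F p.1 * B)
        ((volume.restrict N).prod (volume.restrict (Set.Icc (-R') R'))) :=
      Integrable.mul_prod hFi (integrable_const B)
    refine h1.norm.mono' hmeas.aestronglyMeasurable (ae_of_all _ fun p => ?_)
    rw [hf]
    simp only [norm_mul, Complex.norm_exp_ofReal_mul_I, mul_one, Complex.norm_real]
    refine mul_le_mul_of_nonneg_left ?_ (norm_nonneg _)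
    exact (hB _).trans (le_abs_self B)
  have hin : ∀ t : ℝ, ∫ ξ in Set.Icc (-R') R', f (t, ξ) = ((F t * mm (Real.log (z t / c)) : ℝ) : ℂ) := by
    intro t
    rw [hf]
    simp only
    rw [integral_const_mul, ← hm]
    push_cast
    ring
  have hI1 : Integrable (fun t => ((F t * mm (Real.log (z t / c)) : ℝ) : ℂ)) (volume.restrict N) := by
    have := hfi.integral_prod_left
    refine this.congr (ae_of_all _ fun t => ?_)
    exact hin t
  have hI2 : IntegrableOn (fun t => F t * mm (Real.log (z t / c))) N := by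
    have := hI1.re
    unfold IntegrableOn
    simpa using this
  refine ⟨hI2, ?_⟩
  have e1 : ((∫ t in N, F t * mm (Real.log (z t / c)) : ℝ) : ℂ) =
      ∫ ξ in Set.Icc (-R') R', ∫ t in N, f (t, ξ) := by
    rw [← integral_complex_ofReal, ← integral_integral_swap (f := fun t ξ => f (t, ξ)) hfi]
    refine integral_congr_ae (ae_of_all _ fun t => ?_)
    exact (hin t).symm
  have e2 : ∀ ξ : ℝ, ∫ t in N, f (t, ξ) = φ ξ * cexp (((ξ * (-Real.log c) : ℝ) : ℂ) * I) *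
      ∫ t in N, ((z t : ℝ) : ℂ) ^ ((ξ : ℂ) * I) * ((F t : ℝ) : ℂ) := by
    intro ξ
    rw [← integral_const_mul]
    refine setIntegral_congr_fun hN fun t ht => ?_
    have hz1 := hz0 t ht
    have hz2 : ((z t : ℝ) : ℂ) ≠ 0 := by exact_mod_cast hz1.ne'
    simp only [hf]
    rw [Real.log_div hz1.ne' hc.ne', Complex.cpow_def_of_ne_zero hz2, ← Complex.ofReal_log hz1.le]
    have e3 : (((ξ * (Real.log (z t) - Real.log c) : ℝ) : ℂ) * I) =
        (((ξ * (-Real.log c) : ℝ) : ℂ) * I) + ((Real.log (z t) : ℝ) : ℂ) * ((ξ : ℂ) * I) := by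
      push_cast
      ring
    rw [e3, Complex.exp_add]
    ring
  have hg : Integrable (fun ξ : ℝ => B * A * Real.exp (-(L / 4) * ξ ^ 2)) :=
    (integrable_exp_neg_mul_sq (by positivity)).const_mul _
  have h3 : ‖∫ ξ in Set.Icc (-R') R', ∫ t in N, f (t, ξ)‖ ≤
      ∫ ξ in Set.Icc (-R') R', B * A * Real.exp (-(L / 4) * ξ ^ 2) := by
    refine norm_integral_le_of_norm_le hg.integrableOn ?_
    refine (ae_restrict_iff' measurableSet_Icc).2 (ae_of_all _ fun ξ hξ => ?_)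
    rw [e2 ξ, norm_mul, norm_mul, Complex.norm_exp_ofReal_mul_I, mul_one]
    have h4 := hb ξ (abs_le.2 ⟨hξ.1, hξ.2⟩)
    calc ‖φ ξ‖ * ‖∫ t in N, ((z t : ℝ) : ℂ) ^ ((ξ : ℂ) * I) * ((F t : ℝ) : ℂ)‖ ≤
          B * (A * Real.exp (-(ξ ^ 2 / 4) * L)) := mul_le_mul (hB ξ) h4 (norm_nonneg _) hB0
      _ = B * A * Real.exp (-(L / 4) * ξ ^ 2) := by
        rw [← mul_assoc]
        congr 2
        ring
  have h5 : ∫ ξ in Set.Icc (-R') R', B * A * Real.exp (-(L / 4) * ξ ^ 2) ≤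
      B * A * Real.sqrt (4 * Real.pi / L) := by
    calc ∫ ξ in Set.Icc (-R') R', B * A * Real.exp (-(L / 4) * ξ ^ 2) ≤
          ∫ ξ : ℝ, B * A * Real.exp (-(L / 4) * ξ ^ 2) :=
            setIntegral_le_integral hg (ae_of_all _ fun ξ => by positivity)
      _ = B * A * Real.sqrt (4 * Real.pi / L) := by
        rw [integral_const_mul, integral_gaussian]
        congr 2
        field_simp
  calc ∫ t in N, F t * mm (Real.log (z t / c)) ≤ ‖((∫ t in N, F t * mm (Real.log (z t / c)) : ℝ) : ℂ)‖ := by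
        rw [Complex.norm_real]
        exact le_abs_self _
    _ ≤ _ := by
        rw [e1]
        exact h3.trans h5

/-- **(TLT)** -/
theorem t_TLT (hC : S_CJM) (hM : S_MAJ) : S_TLT := by
  intro m V R D hV hR hD
  obtain ⟨R', φ, mm, hR', hφ, hφ0, hmm0, hmm1, hmm2, -⟩ := hM V 1 hV one_pos
  obtain ⟨B, hB0, hB⟩ := phi_bd hφ hφ0
  obtain ⟨C₀, hC₀, lam, δ0, hlam, hδ0, hδ01, hev⟩ := hC m (max R R') D (lt_max_of_lt_left hR) hD
  refine ⟨B * C₀ * Real.sqrt (4 * Real.pi), by positivity, lam, δ0, hlam, hδ0, hδ01, ?_⟩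
  filter_upwards [hev, eventually_gt_atTop (0:ℝ)] with X hX hX0
  intro δ h0 h1 h2 h hhX
  obtain ⟨N, hN1, hN2, hN3, hN4, hN5⟩ := hX δ h0 h1 h2 h hhX
  refine ⟨N, hN1, hN2, hN3, hN4, fun k0 c k hk0 hk0R hc hk => ?_⟩
  have hδ16 : δ ≤ 1 / 16 := h1.trans hδ01
  have hk00 : 0 < k0 := hV.trans_le hk0
  obtain ⟨hFi, hFb⟩ := hN5 k0 k ((abs_of_pos hk00).le.trans (hk0R.trans (le_max_left _ _)))
    (fun j => (hk j).trans (le_max_left _ _))
  have hz : Continuous fun t : ℝ => mz δ t := TMA.cont hδ16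
  have hzm : Measurable fun t : ℝ => mz δ t := hz.measurable
  have hGm : Measurable fun t : ℝ => ∏ j, mz δ (t + h j) ^ (2 * k j) := by
    refine Finset.measurable_prod _ fun j _ => ?_
    exact (hz.comp (by fun_prop : Continuous fun t : ℝ => t + h j)).measurable.pow_const _
  have hFm : Measurable fun t : ℝ => mz δ t ^ (2 * k0) * ∏ j, mz δ (t + h j) ^ (2 * k j) :=
    (hzm.pow_const _).mul hGm
  have hG0 : ∀ t : ℝ, 0 ≤ ∏ j, mz δ (t + h j) ^ (2 * k j) := fun t =>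
    Finset.prod_nonneg fun j _ => Real.rpow_nonneg (norm_nonneg _) _
  have hF0 : ∀ t : ℝ, 0 ≤ mz δ t ^ (2 * k0) * ∏ j, mz δ (t + h j) ^ (2 * k j) := fun t =>
    mul_nonneg (Real.rpow_nonneg (norm_nonneg _) _) (hG0 t)
  have hL : 0 < Real.log (1 / δ) := by
    apply Real.log_pos
    rw [lt_div_iff₀ h0]
    linarith
  set M := z1 δ 0 ^ (k0 ^ 2) * (∏ j, z1 δ (h j) ^ (2 * (k0 * k j))) * ∏ j, ∏ l, z1 δ (h j - h l) ^ (k j * k l)
    with hMdef
  have hM0 : 0 ≤ M := by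
    refine mul_nonneg (mul_nonneg (Real.rpow_nonneg (norm_nonneg _) _)
      (Finset.prod_nonneg fun j _ => Real.rpow_nonneg (norm_nonneg _) _))
      (Finset.prod_nonneg fun j _ => Finset.prod_nonneg fun l _ => Real.rpow_nonneg (norm_nonneg _) _)
  obtain ⟨k1, k2⟩ := key (z := fun t => mz δ t)
    (F := fun t => mz δ t ^ (2 * k0) * ∏ j, mz δ (t + h j) ^ (2 * k j)) (A := C₀ * X * M)
    (L := Real.log (1 / δ)) hN1 hzm hFm hFi (fun t ht => (hN4 t ht).1) hφ hB0.le hB hmm2 hc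
    (by positivity) hL (fun ξ hξ => by
      refine (hFb ξ (hξ.trans (le_max_right _ _))).trans (le_of_eq ?_)
      ring)
  have hset : MeasurableSet (N ∩ {t : ℝ | c < mz δ t}) :=
    hN1.inter (measurableSet_lt measurable_const hzm)
  -- pointwise bound
  have hpt : ∀ t ∈ N ∩ {t : ℝ | c < mz δ t}, ∏ j, mz δ (t + h j) ^ (2 * k j) ≤
      c ^ (-(2 * k0)) * ((mz δ t ^ (2 * k0) * ∏ j, mz δ (t + h j) ^ (2 * k j)) *
        mm (Real.log (mz δ t / c))) := by
    rintro t ⟨ht, htc⟩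
    have htc' : c < mz δ t := htc
    have hzt : 0 < mz δ t := (hN4 t ht).1
    have hx : 0 < Real.log (mz δ t / c) := Real.log_pos ((one_lt_div hc).2 htc')
    have i1 := hmm1 _ hx
    have i2 : c ^ (-(2 * k0)) * mz δ t ^ (2 * k0) = Real.exp (2 * k0 * Real.log (mz δ t / c)) := by
      rw [Real.rpow_neg hc.le, ← div_eq_inv_mul, ← Real.div_rpow hzt.le hc.le, Real.rpow_def_of_pos (by positivity)]
      congr 1
      ring
    have i3 : 1 ≤ Real.exp (2 * k0 * Real.log (mz δ t / c)) * mm (Real.log (mz δ t / c)) := by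
      calc (1:ℝ) ≤ Real.exp (2 * (k0 - V) * Real.log (mz δ t / c)) := by
            apply Real.one_le_exp
            have : 0 ≤ k0 - V := by linarith
            positivity
        _ = Real.exp (2 * k0 * Real.log (mz δ t / c)) * Real.exp (-(2 * V * Real.log (mz δ t / c))) := by
            rw [← Real.exp_add]
            congr 1
            ring
        _ ≤ _ := mul_le_mul_of_nonneg_left i1 (Real.exp_pos _).le
    have i4 : c ^ (-(2 * k0)) * ((mz δ t ^ (2 * k0) * ∏ j, mz δ (t + h j) ^ (2 * k j)) *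
        mm (Real.log (mz δ t / c))) = (c ^ (-(2 * k0)) * mz δ t ^ (2 * k0) * mm (Real.log (mz δ t / c))) *
        ∏ j, mz δ (t + h j) ^ (2 * k j) := by ring
    rw [i4, i2]
    exact le_mul_of_one_le_left (hG0 t) i3
  have hJi : IntegrableOn (fun t => c ^ (-(2 * k0)) * ((mz δ t ^ (2 * k0) * ∏ j, mz δ (t + h j) ^ (2 * k j)) *
        mm (Real.log (mz δ t / c)))) N := k1.const_mul _
  have hint : IntegrableOn (fun t => ∏ j, mz δ (t + h j) ^ (2 * k j)) (N ∩ {t : ℝ | c < mz δ t}) := by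
    refine Integrable.mono' (hJi.mono_set Set.inter_subset_left) hGm.aestronglyMeasurable ?_
    refine (ae_restrict_iff' hset).2 (ae_of_all _ fun t ht => ?_)
    rw [Real.norm_of_nonneg (hG0 t)]
    exact hpt t ht
  refine ⟨hint, ?_⟩
  calc ∫ t in N ∩ {t : ℝ | c < mz δ t}, ∏ j, mz δ (t + h j) ^ (2 * k j) ≤
        ∫ t in N ∩ {t : ℝ | c < mz δ t}, c ^ (-(2 * k0)) * ((mz δ t ^ (2 * k0) *
          ∏ j, mz δ (t + h j) ^ (2 * k j)) * mm (Real.log (mz δ t / c))) :=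
        setIntegral_mono_on hint (hJi.mono_set Set.inter_subset_left) hset hpt
    _ ≤ ∫ t in N, c ^ (-(2 * k0)) * ((mz δ t ^ (2 * k0) *
          ∏ j, mz δ (t + h j) ^ (2 * k j)) * mm (Real.log (mz δ t / c))) := by
        refine setIntegral_mono_set hJi (ae_of_all _ fun t => ?_) (ae_of_all _ Set.inter_subset_left)
        exact mul_nonneg (Real.rpow_nonneg hc.le _) (mul_nonneg (hF0 t) (hmm0 _))
    _ = c ^ (-(2 * k0)) * ∫ t in N, (mz δ t ^ (2 * k0) *
          ∏ j, mz δ (t + h j) ^ (2 * k j)) * mm (Real.log (mz δ t / c)) := integral_const_mul _ _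
    _ ≤ c ^ (-(2 * k0)) * (B * (C₀ * X * M) * Real.sqrt (4 * Real.pi / Real.log (1 / δ))) :=
        mul_le_mul_of_nonneg_left k2 (Real.rpow_nonneg hc.le _)
    _ = _ := by
        rw [Real.sqrt_div (by positivity)]
        ring

end Pool.Agent.V5helper69.EG.TLT
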